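import Mathlib

set_option autoImplicit false

namespace Pool.Agent.Results.MP_958251_co.OneConic

/-- The points of `T` lie in the `n × n` grid `{0, ..., n-1} × {0, ..., n-1}`. -/
def InGrid (n : ℕ) (T : Finset (ℕ × ℕ)) : Prop := ∀ P ∈ T, P.1 < n ∧ P.2 < n

/-- No three distinct points of `T` lie on a common straight line. -/
def NoThree (T : Finset (ℕ × ℕ)) : Prop :=
  ∀ P ∈ T, ∀ Q ∈ T, ∀ R ∈ T, P ≠ Q → P ≠ R → Q ≠ R →
    ((Q.1 : ℤ) - P.1) * ((R.2 : ℤ) - P.2) ≠ ((Q.2 : ℤ) - P.2) * ((R.1 : ℤ) - P.1)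

/-- The residue classes modulo `m` of the differences `x - y`, `(x, y) ∈ T`. -/
def diffRes (m : ℕ) (T : Finset (ℕ × ℕ)) : Finset (ZMod m) :=
  T.image fun P => (P.1 : ZMod m) - (P.2 : ZMod m)

/-- The residue classes modulo `m` of the sums `x + y`, `(x, y) ∈ T`. -/
def sumRes (m : ℕ) (T : Finset (ℕ × ℕ)) : Finset (ZMod m) :=
  T.image fun P => (P.1 : ZMod m) + (P.2 : ZMod m)

/-- All points of `T` lie on the hyperbola `(x - a) (y - b) = k` modulo `p`. -/
def OnHyperbola (p : ℕ) (a b k : ZMod p) (T : Finset (ℕ × ℕ)) : Prop :=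
  ∀ P ∈ T, ((P.1 : ZMod p) - a) * ((P.2 : ZMod p) - b) = k

/-- The conic `A x² + B x y + C y² + D x + E y + F = 0` modulo `p` is nondegenerate. -/
def Nondeg (p : ℕ) (A B C D E F : ZMod p) : Prop :=
  4 * A * C * F + B * D * E - A * E ^ 2 - C * D ^ 2 - F * B ^ 2 ≠ 0

/-- All points of `T` lie on the conic `A x² + B x y + C y² + D x + E y + F = 0` modulo `p`. -/
def OnConic (p : ℕ) (A B C D E F : ZMod p) (T : Finset (ℕ × ℕ)) : Prop :=
  ∀ P ∈ T, A * (P.1 : ZMod p) ^ 2 + B * (P.1 : ZMod p) * (P.2 : ZMod p) +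
    C * (P.2 : ZMod p) ^ 2 + D * (P.1 : ZMod p) + E * (P.2 : ZMod p) + F = 0

/-! ### Sums of squares over sets of integers -/

private theorem sum_sq_int (α : ℝ) : ∀ (l : ℕ) (J : Finset ℤ), J.card = l →
    ((l : ℝ) ^ 3 - l) / 12 ≤ ∑ j ∈ J, (α + j) ^ 2 := by
  intro l
  induction l using Nat.strong_induction_on with
  | _ l ih =>
    intro J hJ
    match l, hJ, ih with
    | 0, hJ, _ =>
      have : (0 : ℝ) ≤ ∑ j ∈ J, (α + j) ^ 2 := Finset.sum_nonneg fun _ _ => sq_nonneg _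
      simpa using this
    | 1, hJ, _ =>
      have : (0 : ℝ) ≤ ∑ j ∈ J, (α + j) ^ 2 := Finset.sum_nonneg fun _ _ => sq_nonneg _
      simpa using this
    | l + 2, hJ, ih =>
      have hne : J.Nonempty := by
        rw [← Finset.card_pos, hJ]
        omega
      set a := J.min' hne with ha
      set b := J.max' hne with hb
      have hamem : a ∈ J := J.min'_mem hne
      have hbmem : b ∈ J := J.max'_mem hne
      have hsub : J ⊆ Finset.Icc a b := fun x hx =>
        Finset.mem_Icc.2 ⟨J.min'_le x hx, J.le_max' x hx⟩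
      have hcard : (l : ℤ) + 1 ≤ b - a := by
        have h1 := Finset.card_le_card hsub
        rw [hJ, Int.card_Icc] at h1
        omega
      have hab : b ≠ a := by
        intro h
        rw [h] at hcard
        omega
      have hb' : b ∈ J.erase a := Finset.mem_erase.2 ⟨hab, hbmem⟩
      have hc' : ((J.erase a).erase b).card = l := by
        rw [Finset.card_erase_of_mem hb', Finset.card_erase_of_mem hamem, hJ]
        omega
      have h1 := ih l (by omega) _ hc'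
      have h2 : ∑ j ∈ J, (α + j) ^ 2 =
          (α + a) ^ 2 + ((α + b) ^ 2 + ∑ j ∈ (J.erase a).erase b, (α + j) ^ 2) := by
        rw [← Finset.add_sum_erase J (fun j : ℤ => (α + j) ^ 2) hamem,
          ← Finset.add_sum_erase (J.erase a) (fun j : ℤ => (α + j) ^ 2) hb']
      have h3 : ((l : ℝ) + 1) ≤ (b : ℝ) - a := by exact_mod_cast hcard
      rw [h2]
      push_cast
      have h4 : ((l : ℝ) + 1) ^ 2 ≤ ((b : ℝ) - a) ^ 2 := by
        have : (0 : ℝ) ≤ (l : ℝ) + 1 := by positivity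
        nlinarith
      nlinarith [sq_nonneg ((α + a) + (α + b))]

private theorem sum_sq_class (m : ℕ) (hm : 0 < m) (β : ℝ) (ρ : ZMod m) (S : Finset ℤ)
    (hS : ∀ t ∈ S, (t : ZMod m) = ρ) :
    (m : ℝ) ^ 2 * (((S.card : ℝ) ^ 3 - S.card) / 12) ≤ ∑ t ∈ S, ((t : ℝ) + β) ^ 2 := by
  classical
  rcases S.eq_empty_or_nonempty with hE | ⟨t0, ht0⟩
  · subst hE
    simp
  · have hm0 : (m : ℝ) ≠ 0 := by positivity
    have hdvd : ∀ t ∈ S, ∃ j : ℤ, t = t0 + m * j := by
      intro t ht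
      have h1 : ((t - t0 : ℤ) : ZMod m) = 0 := by
        push_cast
        rw [hS t ht, hS t0 ht0, sub_self]
      rw [ZMod.intCast_zmod_eq_zero_iff_dvd] at h1
      obtain ⟨j, hj⟩ := h1
      exact ⟨j, by linarith⟩
    let g : ℤ → ℤ := fun t => (t - t0) / m
    have hg : ∀ t ∈ S, t = t0 + m * g t := by
      intro t ht
      obtain ⟨j, hj⟩ := hdvd t ht
      have : g t = j := by
        change (t - t0) / m = j
        rw [hj]
        have hm1 : (m : ℤ) ≠ 0 := by exact_mod_cast hm.ne'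
        rw [add_sub_cancel_left, Int.mul_ediv_cancel_left _ hm1]
      rw [this]
      exact hj
    have hinj : Set.InjOn g S := by
      intro t ht t' ht' h
      rw [hg t ht, hg t' ht', h]
    have h1 := sum_sq_int (((t0 : ℝ) + β) / m) S.card (S.image g)
      (Finset.card_image_of_injOn hinj)
    rw [Finset.sum_image hinj] at h1
    have h2 : ∑ t ∈ S, ((t : ℝ) + β) ^ 2 =
        (m : ℝ) ^ 2 * ∑ t ∈ S, (((t0 : ℝ) + β) / m + (g t : ℝ)) ^ 2 := by
      rw [Finset.mul_sum]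
      refine Finset.sum_congr rfl fun t ht => ?_
      have h3 : (t : ℝ) = t0 + m * g t := by exact_mod_cast hg t ht
      rw [h3]
      field_simp
      ring
    rw [h2]
    exact mul_le_mul_of_nonneg_left h1 (by positivity)

private theorem sum_sq_res (m : ℕ) (hm : 0 < m) (β : ℝ) (R : Finset (ZMod m)) (S : Finset ℤ)
    (hS : ∀ t ∈ S, (t : ZMod m) ∈ R) :
    (m : ℝ) ^ 2 * (∑ ρ ∈ R, ((((S.filter fun t : ℤ => (t : ZMod m) = ρ).card : ℝ)) ^ 3 -
      ((S.filter fun t : ℤ => (t : ZMod m) = ρ).card : ℝ)) / 12) ≤ ∑ t ∈ S, ((t : ℝ) + β) ^ 2 := by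
  classical
  rw [← Finset.sum_fiberwise_of_maps_to hS, Finset.mul_sum]
  refine Finset.sum_le_sum fun ρ _ => ?_
  exact sum_sq_class m hm β ρ _ fun t ht => (Finset.mem_filter.1 ht).2

/-- Lower bound for the second moment of an integer valued function with fibres of size at most
two and values in few residue classes. -/
private theorem lower (m : ℕ) (hm : 0 < m) (β : ℝ) (R : Finset (ZMod m)) (T : Finset (ℕ × ℕ))
    (f : ℕ × ℕ → ℤ) (hf : ∀ t : ℤ, (T.filter fun P => f P = t).card ≤ 2)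
    (hR : ∀ P ∈ T, (f P : ZMod m) ∈ R) :
    (m : ℝ) ^ 2 * (T.card : ℝ) ^ 3 ≤
      4 * (R.card : ℝ) ^ 2 * (12 * ∑ P ∈ T, ((f P : ℝ) + β) ^ 2 + (m : ℝ) ^ 2 * T.card) := by
  classical
  set S1 : Finset ℤ := T.image f with hS1
  set S2 : Finset ℤ := S1.filter fun t => (T.filter fun P => f P = t).card = 2 with hS2
  have hmap : ∀ P ∈ T, f P ∈ S1 := fun P hP => Finset.mem_image_of_mem f hP
  have hfib : ∀ t ∈ S1, (T.filter fun P => f P = t).card = 1 + if t ∈ S2 then 1 else 0 := by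
    intro t ht
    have h1 : 0 < (T.filter fun P => f P = t).card := by
      obtain ⟨P, hP, h⟩ := Finset.mem_image.1 ht
      exact Finset.card_pos.2 ⟨P, Finset.mem_filter.2 ⟨hP, h⟩⟩
    have h2 := hf t
    by_cases h3 : t ∈ S2
    · rw [if_pos h3]
      exact (Finset.mem_filter.1 h3).2
    · rw [if_neg h3]
      have h4 : (T.filter fun P => f P = t).card ≠ 2 := fun h => h3 (Finset.mem_filter.2 ⟨ht, h⟩)
      omega
  have hQ : ∀ F : ℤ → ℝ, ∑ P ∈ T, F (f P) = ∑ t ∈ S1, F t + ∑ t ∈ S2, F t := by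
    intro F
    have h1 : ∑ t ∈ S2, F t = ∑ t ∈ S1, if t ∈ S2 then F t else 0 := by
      rw [← Finset.sum_filter]
      refine Finset.sum_congr ?_ fun _ _ => rfl
      ext t
      simp only [Finset.mem_filter, hS2]
      tauto
    rw [h1, ← Finset.sum_add_distrib, ← Finset.sum_fiberwise_of_maps_to hmap]
    refine Finset.sum_congr rfl fun t ht => ?_
    have h2 : ∑ P ∈ T.filter (fun P => f P = t), F (f P) =
        ∑ P ∈ T.filter (fun P => f P = t), F t :=
      Finset.sum_congr rfl fun P hP => by rw [(Finset.mem_filter.1 hP).2]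
    rw [h2, Finset.sum_const, hfib t ht]
    by_cases h3 : t ∈ S2
    · simp only [if_pos h3, nsmul_eq_mul]
      push_cast
      ring
    · simp only [if_neg h3, nsmul_eq_mul]
      push_cast
      ring
  have hcard : (T.card : ℝ) = S1.card + S2.card := by
    have h := hQ fun _ => 1
    simpa using h
  have hR1 : ∀ t ∈ S1, (t : ZMod m) ∈ R := by
    intro t ht
    obtain ⟨P, hP, h⟩ := Finset.mem_image.1 ht
    rw [← h]
    exact hR P hP
  have hR2 : ∀ t ∈ S2, (t : ZMod m) ∈ R := fun t ht => hR1 t (Finset.mem_filter.1 ht).1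
  have hb1 := sum_sq_res m hm β R S1 hR1
  have hb2 := sum_sq_res m hm β R S2 hR2
  have hc1 : (S1.card : ℝ) = ∑ ρ ∈ R, ((S1.filter fun t : ℤ => (t : ZMod m) = ρ).card : ℝ) := by
    have h := Finset.card_eq_sum_card_fiberwise hR1
    exact_mod_cast h
  have hc2 : (S2.card : ℝ) = ∑ ρ ∈ R, ((S2.filter fun t : ℤ => (t : ZMod m) = ρ).card : ℝ) := by
    have h := Finset.card_eq_sum_card_fiberwise hR2
    exact_mod_cast h
  set u : ZMod m → ℝ := fun ρ => ((S1.filter fun t : ℤ => (t : ZMod m) = ρ).card : ℝ) with hu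
  set v : ZMod m → ℝ := fun ρ => ((S2.filter fun t : ℤ => (t : ZMod m) = ρ).card : ℝ) with hv
  have hu0 : ∀ ρ, 0 ≤ u ρ := fun ρ => Nat.cast_nonneg _
  have hv0 : ∀ ρ, 0 ≤ v ρ := fun ρ => Nat.cast_nonneg _
  -- the power mean inequality
  have hpm : (T.card : ℝ) ^ 3 ≤ 4 * (R.card : ℝ) ^ 2 * ∑ ρ ∈ R, (u ρ ^ 3 + v ρ ^ 3) := by
    have h1 : (∑ ρ ∈ R, (u ρ + v ρ)) ^ 3 ≤ (R.card : ℝ) ^ 2 * ∑ ρ ∈ R, (u ρ + v ρ) ^ 3 :=
      pow_sum_le_card_mul_sum_pow (fun ρ _ => add_nonneg (hu0 ρ) (hv0 ρ)) 2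
    have h2 : ∑ ρ ∈ R, (u ρ + v ρ) ^ 3 ≤ 4 * ∑ ρ ∈ R, (u ρ ^ 3 + v ρ ^ 3) := by
      rw [Finset.mul_sum]
      refine Finset.sum_le_sum fun ρ _ => ?_
      nlinarith [mul_nonneg (add_nonneg (hu0 ρ) (hv0 ρ)) (sq_nonneg (u ρ - v ρ))]
    have h3 : (T.card : ℝ) = ∑ ρ ∈ R, (u ρ + v ρ) := by
      rw [Finset.sum_add_distrib, hcard, hc1, hc2]
    rw [h3]
    refine h1.trans ?_
    have h4 := mul_le_mul_of_nonneg_left h2 (sq_nonneg (R.card : ℝ))
    linarith
  have hsum : (m : ℝ) ^ 2 * ∑ ρ ∈ R, (u ρ ^ 3 + v ρ ^ 3) ≤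
      12 * ∑ P ∈ T, ((f P : ℝ) + β) ^ 2 + (m : ℝ) ^ 2 * T.card := by
    rw [hQ fun t => ((t : ℝ) + β) ^ 2, hcard, hc1, hc2]
    have e1 : ∑ ρ ∈ R, (u ρ ^ 3 - u ρ) / 12 = (∑ ρ ∈ R, u ρ ^ 3 - ∑ ρ ∈ R, u ρ) / 12 := by
      rw [← Finset.sum_div, Finset.sum_sub_distrib]
    have e2 : ∑ ρ ∈ R, (v ρ ^ 3 - v ρ) / 12 = (∑ ρ ∈ R, v ρ ^ 3 - ∑ ρ ∈ R, v ρ) / 12 := by
      rw [← Finset.sum_div, Finset.sum_sub_distrib]
    have hb1' : (m : ℝ) ^ 2 * ((∑ ρ ∈ R, u ρ ^ 3 - ∑ ρ ∈ R, u ρ) / 12) ≤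
        ∑ t ∈ S1, ((t : ℝ) + β) ^ 2 := by
      rw [← e1]
      exact hb1
    have hb2' : (m : ℝ) ^ 2 * ((∑ ρ ∈ R, v ρ ^ 3 - ∑ ρ ∈ R, v ρ) / 12) ≤
        ∑ t ∈ S2, ((t : ℝ) + β) ^ 2 := by
      rw [← e2]
      exact hb2
    rw [Finset.sum_add_distrib]
    nlinarith [hb1', hb2']
  calc (m : ℝ) ^ 2 * (T.card : ℝ) ^ 3
      ≤ (m : ℝ) ^ 2 * (4 * (R.card : ℝ) ^ 2 * ∑ ρ ∈ R, (u ρ ^ 3 + v ρ ^ 3)) := by gcongr
    _ = 4 * (R.card : ℝ) ^ 2 * ((m : ℝ) ^ 2 * ∑ ρ ∈ R, (u ρ ^ 3 + v ρ ^ 3)) := by ring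
    _ ≤ _ := by gcongr

/-! ### The upper bound for the second moments -/

private theorem sum_range_sq (c : ℝ) (n : ℕ) :
    ∑ x ∈ Finset.range n, ((x : ℝ) - c) ^ 2 =
      (n : ℝ) ^ 3 / 3 - (n : ℝ) ^ 2 / 2 + n / 6 - c * n * (n - 1) + c ^ 2 * n := by
  induction n with
  | zero => simp
  | succ n ih =>
    rw [Finset.sum_range_succ, ih]
    push_cast
    ring

private theorem two_of_three {T : Finset (ℕ × ℕ)} (hT : NoThree T) (f : ℕ × ℕ → ℤ)
    (hf : ∀ P ∈ T, ∀ Q ∈ T, ∀ R ∈ T, f P = f Q → f P = f R →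
      ((Q.1 : ℤ) - P.1) * ((R.2 : ℤ) - P.2) = ((Q.2 : ℤ) - P.2) * ((R.1 : ℤ) - P.1)) (t : ℤ) :
    (T.filter fun P => f P = t).card ≤ 2 := by
  by_contra h
  push Not at h
  obtain ⟨P, hP, Q, hQ, R, hR, h1, h2, h3⟩ := Finset.two_lt_card.1 h
  rw [Finset.mem_filter] at hP hQ hR
  exact hT P hP.1 Q hQ.1 R hR.1 h1 h2 h3
    (hf P hP.1 Q hQ.1 R hR.1 (hP.2.trans hQ.2.symm) (hP.2.trans hR.2.symm))

private theorem upper {n : ℕ} {T : Finset (ℕ × ℕ)} (g : ℕ × ℕ → ℕ) (hg : ∀ P ∈ T, g P < n)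
    (hf : ∀ t : ℕ, (T.filter fun P => g P = t).card ≤ 2) :
    ∑ P ∈ T, ((g P : ℝ) - ((n : ℝ) - 1) / 2) ^ 2 ≤ ((n : ℝ) ^ 3 - n) / 6 := by
  have hmap : ∀ P ∈ T, g P ∈ Finset.range n := fun P hP => Finset.mem_range.2 (hg P hP)
  rw [← Finset.sum_fiberwise_of_maps_to hmap]
  calc ∑ x ∈ Finset.range n, ∑ P ∈ T with g P = x, ((g P : ℝ) - ((n : ℝ) - 1) / 2) ^ 2
      ≤ ∑ x ∈ Finset.range n, 2 * ((x : ℝ) - ((n : ℝ) - 1) / 2) ^ 2 := by
        refine Finset.sum_le_sum fun x _ => ?_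
        have h1 : ∑ P ∈ T with g P = x, ((g P : ℝ) - ((n : ℝ) - 1) / 2) ^ 2 =
            ∑ P ∈ T with g P = x, ((x : ℝ) - ((n : ℝ) - 1) / 2) ^ 2 :=
          Finset.sum_congr rfl fun P hP => by rw [(Finset.mem_filter.1 hP).2]
        rw [h1, Finset.sum_const, nsmul_eq_mul]
        have h2 : ((T.filter fun P => g P = x).card : ℝ) ≤ 2 := by exact_mod_cast hf x
        exact mul_le_mul_of_nonneg_right h2 (sq_nonneg _)
    _ = ((n : ℝ) ^ 3 - n) / 6 := by
        rw [← Finset.mul_sum, sum_range_sq]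
        ring

private theorem moments {n : ℕ} {T : Finset (ℕ × ℕ)} (hn : InGrid n T) (hT : NoThree T) :
    (∑ P ∈ T, ((((P.1 : ℤ) - P.2 : ℤ) : ℝ) + 0) ^ 2) +
      ∑ P ∈ T, ((((P.1 : ℤ) + P.2 : ℤ) : ℝ) + (-((n : ℝ) - 1))) ^ 2 ≤
      2 * ((n : ℝ) ^ 3 - n) / 3 := by
  have h1 := upper (T := T) (fun P => P.1) (fun P hP => (hn P hP).1) (fun t => by
    have h := two_of_three hT (fun P => (P.1 : ℤ)) (by
      intro P _ Q _ R _ h1 h2
      rw [← h1, ← h2]
      ring) (t : ℤ)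
    simpa using h)
  have h2 := upper (T := T) (fun P => P.2) (fun P hP => (hn P hP).2) (fun t => by
    have h := two_of_three hT (fun P => (P.2 : ℤ)) (by
      intro P _ Q _ R _ h1 h2
      rw [← h1, ← h2]
      ring) (t : ℤ)
    simpa using h)
  have h3 : (∑ P ∈ T, ((((P.1 : ℤ) - P.2 : ℤ) : ℝ) + 0) ^ 2) +
      ∑ P ∈ T, ((((P.1 : ℤ) + P.2 : ℤ) : ℝ) + (-((n : ℝ) - 1))) ^ 2 =
      2 * ∑ P ∈ T, ((P.1 : ℝ) - ((n : ℝ) - 1) / 2) ^ 2 +
      2 * ∑ P ∈ T, ((P.2 : ℝ) - ((n : ℝ) - 1) / 2) ^ 2 := by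
    rw [Finset.mul_sum, Finset.mul_sum, ← Finset.sum_add_distrib, ← Finset.sum_add_distrib]
    refine Finset.sum_congr rfl fun P _ => ?_
    push_cast
    ring
  rw [h3]
  linarith

/-- The general inequality for an arbitrary modulus. -/
private theorem general (n m : ℕ) (hm : 0 < m) (T : Finset (ℕ × ℕ)) (hn : InGrid n T)
    (hT : NoThree T) :
    (m : ℝ) ^ 2 * (T.card : ℝ) ^ 3 *
        (1 / ((diffRes m T).card : ℝ) ^ 2 + 1 / ((sumRes m T).card : ℝ) ^ 2) ≤
      32 * ((n : ℝ) ^ 3 - n) + 8 * (m : ℝ) ^ 2 * T.card := by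
  classical
  have h1 := lower m hm 0 (diffRes m T) T (fun P => (P.1 : ℤ) - P.2)
    (two_of_three hT _ (by
      intro P _ Q _ R _ h1 h2
      have e1 : (Q.1 : ℤ) - P.1 = Q.2 - P.2 := by linarith
      have e2 : (R.1 : ℤ) - P.1 = R.2 - P.2 := by linarith
      rw [e1, e2]))
    (fun P hP => by
      refine Finset.mem_image.2 ⟨P, hP, ?_⟩
      push_cast
      rfl)
  have h2 := lower m hm (-((n : ℝ) - 1)) (sumRes m T) T (fun P => (P.1 : ℤ) + P.2)
    (two_of_three hT _ (by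
      intro P _ Q _ R _ h1 h2
      have e1 : (Q.1 : ℤ) - P.1 = -(Q.2 - P.2) := by linarith
      have e2 : (R.1 : ℤ) - P.1 = -(R.2 - P.2) := by linarith
      rw [e1, e2]
      ring))
    (fun P hP => by
      refine Finset.mem_image.2 ⟨P, hP, ?_⟩
      push_cast
      rfl)
  have h3 := moments hn hT
  have key : ∀ (r Q : ℝ), 0 ≤ r → 0 ≤ Q →
      (m : ℝ) ^ 2 * (T.card : ℝ) ^ 3 ≤ 4 * r ^ 2 * (12 * Q + (m : ℝ) ^ 2 * T.card) →
      (m : ℝ) ^ 2 * (T.card : ℝ) ^ 3 * (1 / r ^ 2) ≤ 4 * (12 * Q + (m : ℝ) ^ 2 * T.card) := by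
    intro r Q hr hQ h
    rcases hr.eq_or_lt with h0 | h0
    · rw [← h0]
      simp only [ne_eq, OfNat.ofNat_ne_zero, not_false_eq_true, zero_pow, div_zero, mul_zero]
      positivity
    · rw [mul_one_div, div_le_iff₀ (by positivity)]
      linarith
  have k1 := key _ _ (Nat.cast_nonneg _) (Finset.sum_nonneg fun _ _ => sq_nonneg _) h1
  have k2 := key _ _ (Nat.cast_nonneg _) (Finset.sum_nonneg fun _ _ => sq_nonneg _) h2
  rw [mul_add]
  linarith

/-! ### Hyperbolas -/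

private theorem image_card_invol {α β : Type} [DecidableEq α] [DecidableEq β] (s : Finset α)
    (f : α → β) (σ : α → α) (hσ : ∀ u ∈ s, σ u ∈ s) (hf : ∀ u ∈ s, f (σ u) = f u) :
    2 * (s.image f).card ≤ s.card + (s.filter fun u => σ u = u).card := by
  have h1 : s.card = ∑ b ∈ s.image f, (s.filter fun u => f u = b).card :=
    Finset.card_eq_sum_card_image f s
  have h2 : (s.filter fun u => σ u = u).card =
      ∑ b ∈ s.image f, ((s.filter fun u => σ u = u).filter fun u => f u = b).card :=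
    Finset.card_eq_sum_card_fiberwise fun u hu =>
      Finset.mem_image_of_mem f (Finset.mem_filter.1 hu).1
  rw [h1, h2, ← Finset.sum_add_distrib, mul_comm, ← smul_eq_mul, ← Finset.sum_const]
  refine Finset.sum_le_sum fun b hb => ?_
  obtain ⟨u, hu, hub⟩ := Finset.mem_image.1 hb
  by_cases h : σ u = u
  · have h3 : 0 < (s.filter fun u => f u = b).card :=
      Finset.card_pos.2 ⟨u, Finset.mem_filter.2 ⟨hu, hub⟩⟩
    have h4 : 0 < ((s.filter fun u => σ u = u).filter fun u => f u = b).card :=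
      Finset.card_pos.2 ⟨u, Finset.mem_filter.2 ⟨Finset.mem_filter.2 ⟨hu, h⟩, hub⟩⟩
    omega
  · have h3 : 1 < (s.filter fun u => f u = b).card :=
      Finset.one_lt_card.2 ⟨u, Finset.mem_filter.2 ⟨hu, hub⟩, σ u,
        Finset.mem_filter.2 ⟨hσ u hu, (hf u hu).trans hub⟩, fun h' => h h'.symm⟩
    omega

private theorem card_sq_eq {p : ℕ} [Fact p.Prime] (c : ZMod p) :
    (Finset.univ.filter fun u : ZMod p => u ^ 2 = c).card ≤ 2 := by
  classical
  by_cases h : ∃ u0 : ZMod p, u0 ^ 2 = c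
  · obtain ⟨u0, h0⟩ := h
    have hsub : (Finset.univ.filter fun u : ZMod p => u ^ 2 = c) ⊆ {u0, -u0} := by
      intro u hu
      have h1 := (Finset.mem_filter.1 hu).2
      rw [← h0, sq_eq_sq_iff_eq_or_eq_neg] at h1
      simpa using h1
    exact (Finset.card_le_card hsub).trans Finset.card_le_two
  · have : (Finset.univ.filter fun u : ZMod p => u ^ 2 = c) = ∅ := by
      rw [Finset.filter_eq_empty_iff]
      intro u _ hu
      exact h ⟨u, hu⟩
    rw [this]
    simp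

/-- The values of `u + e / u + s`, `u ≠ 0`. -/
private def vals (p : ℕ) [Fact p.Prime] (e s : ZMod p) : Finset (ZMod p) :=
  (Finset.univ.filter fun u : ZMod p => u ≠ 0).image fun u => u + e * u⁻¹ + s

private theorem card_vals {p : ℕ} [Fact p.Prime] (e s : ZMod p) (he : e ≠ 0) :
    2 * (vals p e s).card ≤ p + 1 := by
  classical
  have h1 := image_card_invol (Finset.univ.filter fun u : ZMod p => u ≠ 0)
    (fun u => u + e * u⁻¹ + s) (fun u => e * u⁻¹)
    (by
      intro u hu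
      have hu0 := (Finset.mem_filter.1 hu).2
      exact Finset.mem_filter.2 ⟨Finset.mem_univ _, mul_ne_zero he (inv_ne_zero hu0)⟩)
    (by
      intro u hu
      have hu0 := (Finset.mem_filter.1 hu).2
      field_simp
      ring)
  have h2 : (Finset.univ.filter fun u : ZMod p => u ≠ 0).card = p - 1 := by
    rw [Finset.filter_ne', Finset.card_erase_of_mem (Finset.mem_univ _), Finset.card_univ,
      ZMod.card]
  have h3 : ((Finset.univ.filter fun u : ZMod p => u ≠ 0).filter fun u => e * u⁻¹ = u).card ≤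
      2 := by
    refine le_trans (Finset.card_le_card ?_) (card_sq_eq (p := p) e)
    intro u hu
    rw [Finset.mem_filter, Finset.mem_filter] at hu
    refine Finset.mem_filter.2 ⟨Finset.mem_univ _, ?_⟩
    have hu0 := hu.1.2
    have h4 := hu.2
    rw [sq]
    nth_rewrite 1 [← h4]
    rw [mul_assoc, inv_mul_cancel₀ hu0, mul_one]
  have h5 := (Fact.out : p.Prime).one_lt
  unfold vals
  omega

private theorem diffRes_sub {p : ℕ} [Fact p.Prime] {a b k : ZMod p} (hk : k ≠ 0)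
    {T : Finset (ℕ × ℕ)} (hT : OnHyperbola p a b k T) : diffRes p T ⊆ vals p (-k) (a - b) := by
  intro ρ hρ
  obtain ⟨P, hP, rfl⟩ := Finset.mem_image.1 hρ
  have h := hT P hP
  have hu : (P.1 : ZMod p) - a ≠ 0 := by
    intro h0
    rw [h0, zero_mul] at h
    exact hk h.symm
  refine Finset.mem_image.2 ⟨(P.1 : ZMod p) - a,
    Finset.mem_filter.2 ⟨Finset.mem_univ _, hu⟩, ?_⟩
  have h1 : (P.2 : ZMod p) = b + k * ((P.1 : ZMod p) - a)⁻¹ := by
    rw [← h]
    field_simp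
    ring
  rw [h1]
  ring

private theorem sumRes_sub {p : ℕ} [Fact p.Prime] {a b k : ZMod p} (hk : k ≠ 0)
    {T : Finset (ℕ × ℕ)} (hT : OnHyperbola p a b k T) : sumRes p T ⊆ vals p k (a + b) := by
  intro ρ hρ
  obtain ⟨P, hP, rfl⟩ := Finset.mem_image.1 hρ
  have h := hT P hP
  have hu : (P.1 : ZMod p) - a ≠ 0 := by
    intro h0
    rw [h0, zero_mul] at h
    exact hk h.symm
  refine Finset.mem_image.2 ⟨(P.1 : ZMod p) - a,
    Finset.mem_filter.2 ⟨Finset.mem_univ _, hu⟩, ?_⟩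
  have h1 : (P.2 : ZMod p) = b + k * ((P.1 : ZMod p) - a)⁻¹ := by
    rw [← h]
    field_simp
    ring
  rw [h1]
  ring

private theorem inv_bound {r : ℕ} {M : ℝ} (hr : 0 < r) (hrM : (r : ℝ) ≤ M) :
    1 / M ^ 2 ≤ 1 / (r : ℝ) ^ 2 := by
  have h : (0 : ℝ) < r := by exact_mod_cast hr
  gcongr

private theorem hyp_gen (n p : ℕ) [Fact p.Prime] (a b k : ZMod p) (hk : k ≠ 0)
    (T : Finset (ℕ × ℕ)) (hn : InGrid n T) (hT : NoThree T) (hH : OnHyperbola p a b k T)
    (M N : ℝ) (hM : ((vals p (-k) (a - b)).card : ℝ) ≤ M)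
    (hN : ((vals p k (a + b)).card : ℝ) ≤ N) :
    (p : ℝ) ^ 2 * (T.card : ℝ) ^ 3 * (1 / M ^ 2 + 1 / N ^ 2) ≤
      32 * (n : ℝ) ^ 3 + 8 * (p : ℝ) ^ 2 * T.card := by
  classical
  rcases T.eq_empty_or_nonempty with hE | hne
  · subst hE
    simp only [Finset.card_empty, Nat.cast_zero, ne_eq, OfNat.ofNat_ne_zero, not_false_eq_true,
      zero_pow, mul_zero, zero_mul, add_zero]
    positivity
  · have h0 : 0 < (diffRes p T).card := Finset.card_pos.2 (hne.image _)
    have h0' : 0 < (sumRes p T).card := Finset.card_pos.2 (hne.image _)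
    have h1 : ((diffRes p T).card : ℝ) ≤ M :=
      le_trans (by exact_mod_cast Finset.card_le_card (diffRes_sub hk hH)) hM
    have h2 : ((sumRes p T).card : ℝ) ≤ N :=
      le_trans (by exact_mod_cast Finset.card_le_card (sumRes_sub hk hH)) hN
    have h3 := inv_bound h0 h1
    have h4 := inv_bound h0' h2
    have h5 := general n p (Fact.out : p.Prime).pos T hn hT
    calc (p : ℝ) ^ 2 * (T.card : ℝ) ^ 3 * (1 / M ^ 2 + 1 / N ^ 2)
        ≤ (p : ℝ) ^ 2 * (T.card : ℝ) ^ 3 *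
          (1 / ((diffRes p T).card : ℝ) ^ 2 + 1 / ((sumRes p T).card : ℝ) ^ 2) := by
          gcongr
      _ ≤ 32 * ((n : ℝ) ^ 3 - n) + 8 * (p : ℝ) ^ 2 * T.card := h5
      _ ≤ 32 * (n : ℝ) ^ 3 + 8 * (p : ℝ) ^ 2 * T.card := by
          have : (0 : ℝ) ≤ n := Nat.cast_nonneg n
          linarith

private theorem hyp_ineq (n p : ℕ) [Fact p.Prime] (a b k : ZMod p) (hk : k ≠ 0)
    (T : Finset (ℕ × ℕ)) (hn : InGrid n T) (hT : NoThree T) (hH : OnHyperbola p a b k T) :
    (p : ℝ) ^ 2 * (T.card : ℝ) ^ 3 ≤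
      ((p : ℝ) + 1) ^ 2 * (4 * (n : ℝ) ^ 3 + (p : ℝ) ^ 2 * T.card) := by
  have h1 : ((vals p (-k) (a - b)).card : ℝ) ≤ ((p : ℝ) + 1) / 2 := by
    have h : ((2 * (vals p (-k) (a - b)).card : ℕ) : ℝ) ≤ ((p + 1 : ℕ) : ℝ) := by
      exact_mod_cast card_vals (-k) (a - b) (neg_ne_zero.2 hk)
    push_cast at h
    linarith
  have h2 : ((vals p k (a + b)).card : ℝ) ≤ ((p : ℝ) + 1) / 2 := by
    have h : ((2 * (vals p k (a + b)).card : ℕ) : ℝ) ≤ ((p + 1 : ℕ) : ℝ) := by
      exact_mod_cast card_vals k (a + b) hk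
    push_cast at h
    linarith
  have h3 := hyp_gen n p a b k hk T hn hT hH _ _ h1 h2
  have h4 : (p : ℝ) ^ 2 * (T.card : ℝ) ^ 3 *
      (1 / (((p : ℝ) + 1) / 2) ^ 2 + 1 / (((p : ℝ) + 1) / 2) ^ 2) =
      8 * ((p : ℝ) ^ 2 * (T.card : ℝ) ^ 3) / ((p : ℝ) + 1) ^ 2 := by
    field_simp
    ring
  rw [h4, div_le_iff₀ (by positivity)] at h3
  linarith

private theorem vals3 (s : ZMod 3) : (vals 3 (-1) s).card ≤ 1 := by
  classical
  have h : vals 3 (-1) s ⊆ {s} := by
    intro ρ hρ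
    obtain ⟨u, hu, rfl⟩ := Finset.mem_image.1 hρ
    have hu0 := (Finset.mem_filter.1 hu).2
    have h1 : ∀ v : ZMod 3, v ≠ 0 → v * v = 1 := by decide
    have h2 : u⁻¹ = u := inv_eq_of_mul_eq_one_left (h1 u hu0)
    rw [Finset.mem_singleton, h2]
    ring
  exact (Finset.card_le_card h).trans (by simp)

private theorem small_case {n t : ℝ} (hn : 500 ≤ n) (h : 8 * t ^ 3 ≤ 32 * n ^ 3 + 72 * t) :
    t ≤ 9 / 5 * n := by
  by_contra hlt
  push Not at hlt
  have h1 : 0 < t := by linarith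
  have h2 : (9 / 5 * n) ^ 2 ≤ t ^ 2 := by
    have : 0 ≤ 9 / 5 * n := by linarith
    nlinarith
  have h3 : 32 * n ^ 3 ≤ 32 * (25 / 81) * (5 / 9) * t ^ 3 := by
    have h4 : n ≤ 5 / 9 * t := by linarith
    have h5 : n ^ 3 ≤ (5 / 9 * t) ^ 3 := by
      have : 0 ≤ n := by linarith
      gcongr
    nlinarith
  have h6 : (900 : ℝ) ^ 2 ≤ t ^ 2 := by
    have : (900 : ℝ) ≤ t := by linarith
    gcongr
  have h7 : (900 : ℝ) ^ 2 * t ≤ t ^ 2 * t := mul_le_mul_of_nonneg_right h6 h1.le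
  nlinarith

private theorem zmod3 (v : ZMod 3) (hv : v ≠ 0) : v = -1 ∨ -v = -1 := by
  revert v
  decide

private theorem rows {n p : ℕ} [Fact p.Prime] (hnp : n ≤ p) (a b k : ZMod p) (hk : k ≠ 0)
    (T : Finset (ℕ × ℕ)) (hn : InGrid n T) (hH : OnHyperbola p a b k T) : T.card ≤ n := by
  have h1 : Set.InjOn (fun P : ℕ × ℕ => P.1) T := by
    intro P hP Q hQ h
    have e1 := hH P hP
    have e2 := hH Q hQ
    have hPQ : P.1 = Q.1 := h
    have hu : (P.1 : ZMod p) - a ≠ 0 := by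
      intro h0
      rw [h0, zero_mul] at e1
      exact hk e1.symm
    rw [← e2, ← hPQ] at e1
    have e3 := mul_left_cancel₀ hu e1
    have e4 : (P.2 : ZMod p) = (Q.2 : ZMod p) := by linear_combination e3
    rw [ZMod.natCast_eq_natCast_iff] at e4
    have h2 : P.2 = Q.2 := Nat.ModEq.eq_of_lt_of_lt e4
      (lt_of_lt_of_le (hn P hP).2 hnp) (lt_of_lt_of_le (hn Q hQ).2 hnp)
    exact Prod.ext hPQ h2
  have h2 : T.card ≤ (Finset.range n).card :=
    Finset.card_le_card_of_injOn (fun P : ℕ × ℕ => P.1)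
      (fun P hP => Finset.mem_coe.2 (Finset.mem_range.2 (hn P hP).1)) h1
  simpa using h2

private theorem big_case {n p t : ℝ} (hp5 : 5 ≤ p) (hpn : p ≤ n) (hn : 500 ≤ n)
    (h : p ^ 2 * t ^ 3 ≤ (p + 1) ^ 2 * (4 * n ^ 3 + p ^ 2 * t)) : t ≤ 9 / 5 * n := by
  by_contra hlt
  push Not at hlt
  have hp0 : 0 < p := by linarith
  have hn0 : 0 < n := by linarith
  have K1 : (p + 1) ^ 2 * (4 * n ^ 2 + 9 / 5 * p ^ 2) ≤ 729 / 125 * p ^ 2 * n ^ 2 := by
    have aux : ∀ c1 c2 : ℝ, 0 ≤ c1 → c1 * c2 ≤ 729 / 125 → (p + 1) ^ 2 ≤ c1 * p ^ 2 →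
        4 * n ^ 2 + 9 / 5 * p ^ 2 ≤ c2 * n ^ 2 →
        (p + 1) ^ 2 * (4 * n ^ 2 + 9 / 5 * p ^ 2) ≤ 729 / 125 * p ^ 2 * n ^ 2 := by
      intro c1 c2 hc1 hc h1 h2
      calc (p + 1) ^ 2 * (4 * n ^ 2 + 9 / 5 * p ^ 2) ≤ (c1 * p ^ 2) * (c2 * n ^ 2) := by
            apply mul_le_mul h1 h2 (by positivity) (by positivity)
        _ = (c1 * c2) * (p ^ 2 * n ^ 2) := by ring
        _ ≤ 729 / 125 * (p ^ 2 * n ^ 2) := by
            apply mul_le_mul_of_nonneg_right hc (by positivity)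
        _ = 729 / 125 * p ^ 2 * n ^ 2 := by ring
    have hp2 : p ^ 2 ≤ n ^ 2 := by gcongr
    rcases le_total 400 p with h400 | h400
    · refine aux (160801 / 160000) (29 / 5) (by norm_num) (by norm_num) ?_ ?_
      · nlinarith
      · linarith
    · rcases le_total 50 p with h50 | h50
      · refine aux (2601 / 2500) (644 / 125) (by norm_num) (by norm_num) ?_ ?_
        · nlinarith
        · have h1 : p ^ 2 ≤ 400 ^ 2 := by gcongr
          have h2 : (500 : ℝ) ^ 2 ≤ n ^ 2 := by gcongr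
          nlinarith
      · refine aux (36 / 25) (2009 / 500) (by norm_num) (by norm_num) ?_ ?_
        · nlinarith
        · have h1 : p ^ 2 ≤ 50 ^ 2 := by gcongr
          have h2 : (500 : ℝ) ^ 2 ≤ n ^ 2 := by gcongr
          nlinarith
  have h1 : 0 < (t - 9 / 5 * n) * (t ^ 2 + 9 / 5 * n * t + (9 / 5 * n) ^ 2 - (p + 1) ^ 2) := by
    refine mul_pos (by linarith) ?_
    have h2 : (p + 1) ^ 2 ≤ (9 / 5 * n) ^ 2 := by
      have : p + 1 ≤ 9 / 5 * n := by linarith
      gcongr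
    have h3 : 0 < t := by linarith
    nlinarith [mul_pos hn0 h3]
  have h2 : p ^ 2 * ((9 / 5 * n) ^ 3 - (p + 1) ^ 2 * (9 / 5 * n)) <
      p ^ 2 * (t ^ 3 - (p + 1) ^ 2 * t) := by
    refine mul_lt_mul_of_pos_left ?_ (by positivity)
    nlinarith
  have h3 : p ^ 2 * ((9 / 5 * n) ^ 3 - (p + 1) ^ 2 * (9 / 5 * n)) < 4 * (p + 1) ^ 2 * n ^ 3 := by
    linarith
  have h4 : ((p + 1) ^ 2 * (4 * n ^ 2 + 9 / 5 * p ^ 2)) * n ≤ (729 / 125 * p ^ 2 * n ^ 2) * n :=
    mul_le_mul_of_nonneg_right K1 hn0.le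
  nlinarith

private theorem final (n p : ℕ) [Fact p.Prime] (a b k : ZMod p) (hk : k ≠ 0)
    (T : Finset (ℕ × ℕ)) (hn : InGrid n T) (hT : NoThree T) (hH : OnHyperbola p a b k T)
    (h500 : 500 ≤ n) : (T.card : ℝ) ≤ 9 / 5 * n := by
  have hn500 : (500 : ℝ) ≤ n := by exact_mod_cast h500
  rcases le_total n p with hnp | hnp
  · have h1 : (T.card : ℝ) ≤ n := by exact_mod_cast rows hnp a b k hk T hn hH
    linarith
  · have hp := (Fact.out : p.Prime)
    rcases le_or_gt 5 p with h5 | h5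
    · exact big_case (by exact_mod_cast h5) (by exact_mod_cast hnp) hn500
        (hyp_ineq n p a b k hk T hn hT hH)
    · have hp2 := hp.two_le
      have hp4 : p ≠ 4 := by
        intro h
        rw [h] at hp
        exact absurd hp (by decide)
      have hcases : p = 2 ∨ p = 3 := by omega
      rcases hcases with h | h
      · subst h
        have h1 : ((vals 2 (-k) (a - b)).card : ℝ) ≤ 1 := by
          have h := card_vals (-k) (a - b) (neg_ne_zero.2 hk)
          have h' : (vals 2 (-k) (a - b)).card ≤ 1 := by omega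
          exact_mod_cast h'
        have h2 : ((vals 2 k (a + b)).card : ℝ) ≤ 1 := by
          have h := card_vals k (a + b) hk
          have h' : (vals 2 k (a + b)).card ≤ 1 := by omega
          exact_mod_cast h'
        have h3 := hyp_gen n 2 a b k hk T hn hT hH 1 1 h1 h2
        refine small_case hn500 ?_
        push_cast at h3
        have h4 : (0 : ℝ) ≤ (T.card : ℝ) ^ 3 := by positivity
        have h5 : (0 : ℝ) ≤ (n : ℝ) ^ 3 := by positivity
        have h6 : (0 : ℝ) ≤ (T.card : ℝ) := by positivity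
        nlinarith
      · subst h
        have h1 : ((vals 3 (-k) (a - b)).card : ℝ) ≤ 2 := by
          have h := card_vals (-k) (a - b) (neg_ne_zero.2 hk)
          have h' : (vals 3 (-k) (a - b)).card ≤ 2 := by omega
          exact_mod_cast h'
        have h2 : ((vals 3 k (a + b)).card : ℝ) ≤ 2 := by
          have h := card_vals k (a + b) hk
          have h' : (vals 3 k (a + b)).card ≤ 2 := by omega
          exact_mod_cast h'
        refine small_case hn500 ?_
        have h4 : (0 : ℝ) ≤ (T.card : ℝ) ^ 3 := by positivity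
        rcases zmod3 k hk with h | h
        · have h2' : ((vals 3 k (a + b)).card : ℝ) ≤ 1 := by
            rw [h]
            exact_mod_cast vals3 (a + b)
          have h3 := hyp_gen n 3 a b k hk T hn hT hH 2 1 h1 h2'
          push_cast at h3
          linarith
        · have h1' : ((vals 3 (-k) (a - b)).card : ℝ) ≤ 1 := by
            rw [h]
            exact_mod_cast vals3 (a - b)
          have h3 := hyp_gen n 3 a b k hk T hn hT hH 1 2 h1' h2
          push_cast at h3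
          linarith

private theorem pi_bound : (9 / 5 : ℝ) < Real.pi / Real.sqrt 3 := by
  have h1 : Real.sqrt 3 < 1733 / 1000 := by
    rw [Real.sqrt_lt' (by norm_num)]
    norm_num
  have h2 : 0 < Real.sqrt 3 := Real.sqrt_pos.2 (by norm_num)
  rw [lt_div_iff₀ h2]
  have h3 := Real.pi_gt_d2
  linarith

/-! ### General conics -/

private theorem card_conic {p : ℕ} [Fact p.Prime] (α β γ : ZMod p) (h : β ^ 2 - 4 * α * γ ≠ 0) :
    (Finset.univ.filter fun z : ZMod p × ZMod p =>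
      z.2 ^ 2 = α * z.1 ^ 2 + β * z.1 + γ).card ≤ p + 2 := by
  classical
  set C := Finset.univ.filter fun z : ZMod p × ZMod p =>
      z.2 ^ 2 = α * z.1 ^ 2 + β * z.1 + γ with hC
  rcases C.eq_empty_or_nonempty with hE | ⟨z0, hz0⟩
  · rw [hE]
    simp
  · have h0 := (Finset.mem_filter.1 hz0).2
    have hinj : Set.InjOn (fun z : ZMod p × ZMod p =>
        if z.1 = z0.1 then none else some ((z.2 - z0.2) / (z.1 - z0.1))) (C.erase z0) := by
      intro z hz z' hz' hzz
      have h1 := (Finset.mem_filter.1 (Finset.mem_erase.1 (Finset.mem_coe.1 hz)).2).2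
      have h1' := (Finset.mem_filter.1 (Finset.mem_erase.1 (Finset.mem_coe.1 hz')).2).2
      have hne := (Finset.mem_erase.1 (Finset.mem_coe.1 hz)).1
      have hne' := (Finset.mem_erase.1 (Finset.mem_coe.1 hz')).1
      simp only at hzz
      by_cases hc : z.1 = z0.1
      · by_cases hc' : z'.1 = z0.1
        · have e1 : z.2 ^ 2 = z0.2 ^ 2 := by rw [h1, h0, hc]
          have e2 : z'.2 ^ 2 = z0.2 ^ 2 := by rw [h1', h0, hc']
          rw [sq_eq_sq_iff_eq_or_eq_neg] at e1 e2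
          have e3 : z.2 = -z0.2 := e1.resolve_left fun h => hne (Prod.ext hc h)
          have e4 : z'.2 = -z0.2 := e2.resolve_left fun h => hne' (Prod.ext hc' h)
          exact Prod.ext (hc.trans hc'.symm) (e3.trans e4.symm)
        · rw [if_pos hc, if_neg hc'] at hzz
          exact absurd hzz (by simp)
      · by_cases hc' : z'.1 = z0.1
        · rw [if_neg hc, if_pos hc'] at hzz
          exact absurd hzz (by simp)
        · rw [if_neg hc, if_neg hc', Option.some.injEq] at hzz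
          set l := (z.2 - z0.2) / (z.1 - z0.1) with hl
          have hs : z.1 - z0.1 ≠ 0 := sub_ne_zero.2 hc
          have hs' : z'.1 - z0.1 ≠ 0 := sub_ne_zero.2 hc'
          have e1 : z.2 = z0.2 + l * (z.1 - z0.1) := by
            rw [hl, div_mul_cancel₀ _ hs]
            ring
          have e2 : z'.2 = z0.2 + l * (z'.1 - z0.1) := by
            rw [hzz, div_mul_cancel₀ _ hs']
            ring
          have f1 : (l ^ 2 - α) * (z.1 - z0.1) = 2 * α * z0.1 + β - 2 * z0.2 * l := by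
            apply mul_left_cancel₀ hs
            rw [e1] at h1
            linear_combination h1 - h0
          have f2 : (l ^ 2 - α) * (z'.1 - z0.1) = 2 * α * z0.1 + β - 2 * z0.2 * l := by
            apply mul_left_cancel₀ hs'
            rw [e2] at h1'
            linear_combination h1' - h0
          by_cases hla : l ^ 2 - α = 0
          · exfalso
            rw [hla, zero_mul] at f1
            apply h
            have f3 : (2 * α * z0.1 + β) ^ 2 = 4 * (z0.2 ^ 2 * l ^ 2) := by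
              linear_combination (-(2 * α * z0.1 + β + 2 * z0.2 * l)) * f1
            have f4 : l ^ 2 = α := sub_eq_zero.1 hla
            rw [h0, f4] at f3
            linear_combination f3
          · have f3 : z.1 - z0.1 = z'.1 - z0.1 := mul_left_cancel₀ hla (f1.trans f2.symm)
            have f4 : z.1 = z'.1 := by linear_combination f3
            exact Prod.ext f4 (by rw [e1, e2, f4])
    have h2 : (C.erase z0).card ≤ (Finset.univ : Finset (Option (ZMod p))).card :=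
      Finset.card_le_card_of_injOn _ (fun _ _ => Finset.mem_coe.2 (Finset.mem_univ _)) hinj
    rw [Finset.card_univ, Fintype.card_option, ZMod.card, Finset.card_erase_of_mem hz0] at h2
    omega

private theorem card_sqvals {p : ℕ} [Fact p.Prime] (hp : p ≠ 2) (α β γ : ZMod p)
    (h : β ^ 2 - 4 * α * γ ≠ 0) :
    2 * (Finset.univ.filter fun η : ZMod p => ∃ w, w ^ 2 = α * η ^ 2 + β * η + γ).card ≤
      p + 4 := by
  classical
  set C := Finset.univ.filter fun z : ZMod p × ZMod p =>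
      z.2 ^ 2 = α * z.1 ^ 2 + β * z.1 + γ with hC
  have h1 := image_card_invol C Prod.fst (fun z => (z.1, -z.2))
    (fun z hz => by
      have := (Finset.mem_filter.1 hz).2
      refine Finset.mem_filter.2 ⟨Finset.mem_univ _, ?_⟩
      simpa using this)
    (fun z _ => rfl)
  have h2 : (Finset.univ.filter fun η : ZMod p => ∃ w, w ^ 2 = α * η ^ 2 + β * η + γ) ⊆
      C.image Prod.fst := by
    intro η hη
    obtain ⟨w, hw⟩ := (Finset.mem_filter.1 hη).2
    exact Finset.mem_image.2 ⟨(η, w), Finset.mem_filter.2 ⟨Finset.mem_univ _, hw⟩, rfl⟩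
  have h3 : C.card ≤ p + 2 := card_conic α β γ h
  have h2ne : (2 : ZMod p) ≠ 0 := by
    have : Fact (2 < p) := ⟨lt_of_le_of_ne (Fact.out : p.Prime).two_le hp.symm⟩
    exact ZMod.neg_one_ne_one.symm ∘ fun h => by
      have : (1 : ZMod p) + 1 = 0 := by rw [one_add_one_eq_two]; exact h
      exact (eq_neg_of_add_eq_zero_left this)
  have h4 : (C.filter fun z : ZMod p × ZMod p => (z.1, -z.2) = z).card ≤ 2 := by
    have hz0 : ∀ z ∈ C.filter fun z : ZMod p × ZMod p => (z.1, -z.2) = z,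
        z.2 = 0 ∧ α * z.1 ^ 2 + β * z.1 + γ = 0 := by
      intro z hz
      rw [Finset.mem_filter] at hz
      have e1 := (Finset.mem_filter.1 hz.1).2
      have e2 : -z.2 = z.2 := congrArg Prod.snd hz.2
      have e3 : z.2 = 0 := by
        have : 2 * z.2 = 0 := by linear_combination -e2
        exact (mul_eq_zero.1 this).resolve_left h2ne
      rw [e3] at e1
      exact ⟨e3, by rw [← e1]; ring⟩
    rcases (C.filter fun z : ZMod p × ZMod p => (z.1, -z.2) = z).eq_empty_or_nonempty with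
      hE | ⟨z1, hz1⟩
    · rw [hE]
      simp
    · have hsub : (C.filter fun z : ZMod p × ZMod p => (z.1, -z.2) = z) ⊆
          {z1, (-(β / α) - z1.1, 0)} := by
        intro z hz
        obtain ⟨a1, a2⟩ := hz0 z hz
        obtain ⟨b1, b2⟩ := hz0 z1 hz1
        rw [Finset.mem_insert, Finset.mem_singleton]
        by_cases hzz : z.1 = z1.1
        · left
          exact Prod.ext hzz (a1.trans b1.symm)
        · right
          have c1 : α * (z.1 + z1.1) + β = 0 := by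
            have : (z.1 - z1.1) * (α * (z.1 + z1.1) + β) = 0 := by
              linear_combination a2 - b2
            exact (mul_eq_zero.1 this).resolve_left (sub_ne_zero.2 hzz)
          have hα : α ≠ 0 := by
            intro hα
            rw [hα, zero_mul, zero_add] at c1
            apply h
            rw [hα, c1]
            ring
          refine Prod.ext ?_ a1
          change z.1 = -(β / α) - z1.1
          field_simp
          linear_combination c1
      exact (Finset.card_le_card hsub).trans Finset.card_le_two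
  have h5 := Finset.card_le_card h2
  omega

private theorem count_res {n p : ℕ} [Fact p.Prime] (hp5 : 5 ≤ p) (hpn : p ≤ n)
    (R : Finset (ZMod p)) (hR : 2 * R.card ≤ p + 4) :
    10 * ((Finset.range n).filter fun y : ℕ => (y : ZMod p) ∈ R).card ≤ 9 * n ∧
      ((Finset.range n).filter fun y : ℕ => (y : ZMod p) ∈ R).card * p ≤ (n + p) * R.card := by
  classical
  have hp0 : 0 < p := by omega
  have hp6 : p ≠ 6 := by
    intro h
    have hp := (Fact.out : p.Prime)
    rw [h] at hp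
    exact absurd hp (by decide)
  set q := n / p with hq
  set r := n % p with hr
  have hn : n = p * q + r := (Nat.div_add_mod n p).symm
  have hrp : r < p := Nat.mod_lt _ hp0
  have hq1 : 1 ≤ q := (Nat.one_le_div_iff hp0).2 hpn
  set S := (Finset.range n).filter fun y : ℕ => (y : ZMod p) ∈ R with hS
  have hcast : ∀ y y' : ℕ, (y : ZMod p) = (y' : ZMod p) → y / p = y' / p → y = y' := by
    intro y y' h1 h2
    rw [ZMod.natCast_eq_natCast_iff'] at h1
    rw [← Nat.div_add_mod y p, ← Nat.div_add_mod y' p, h1, h2]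
  have h1 : (S.filter fun y => y / p < q).card ≤ (Finset.range q ×ˢ R).card := by
    refine Finset.card_le_card_of_injOn (fun y : ℕ => (y / p, (y : ZMod p))) ?_ ?_
    · intro y hy
      rw [Finset.mem_coe, Finset.mem_filter, Finset.mem_filter] at hy
      exact Finset.mem_coe.2 (Finset.mem_product.2 ⟨Finset.mem_range.2 hy.2, hy.1.2⟩)
    · intro y _ y' _ h
      rw [Prod.mk.injEq] at h
      exact hcast y y' h.2 h.1
  have h2 : (S.filter fun y => ¬ y / p < q).card ≤ R.card := by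
    refine Finset.card_le_card_of_injOn (fun y : ℕ => (y : ZMod p)) ?_ ?_
    · intro y hy
      rw [Finset.mem_coe, Finset.mem_filter, Finset.mem_filter] at hy
      exact hy.1.2
    · intro y hy y' hy' h
      rw [Finset.mem_coe, Finset.mem_filter, Finset.mem_filter, Finset.mem_range] at hy hy'
      have e1 : y / p ≤ q := Nat.div_le_div_right hy.1.1.le
      have e2 : y' / p ≤ q := Nat.div_le_div_right hy'.1.1.le
      exact hcast y y' h (by omega)
  have h3 : (S.filter fun y => ¬ y / p < q).card ≤ r := by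
    have h4 : (S.filter fun y => ¬ y / p < q) ⊆ Finset.Ico (p * q) (p * q + r) := by
      intro y hy
      rw [Finset.mem_filter, Finset.mem_filter, Finset.mem_range] at hy
      rw [Finset.mem_Ico]
      have e1 : q ≤ y / p := not_lt.1 hy.2
      have e2 : q * p ≤ y := (Nat.le_div_iff_mul_le hp0).1 e1
      constructor
      · rw [mul_comm]
        exact e2
      · rw [← hn]
        exact hy.1.1
    have h5 := Finset.card_le_card h4
    rw [Nat.card_Ico] at h5
    omega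
  rw [Finset.card_product, Finset.card_range] at h1
  have h6 : S.card = (S.filter fun y => y / p < q).card + (S.filter fun y => ¬ y / p < q).card :=
    (Finset.card_filter_add_card_filter_not (s := S) fun y => y / p < q).symm
  have h7 : 11 * (q * R.card) ≤ 9 * (p * q) := by
    have h8 : 11 * R.card ≤ 9 * p := by omega
    calc 11 * (q * R.card) = q * (11 * R.card) := by ring
      _ ≤ q * (9 * p) := Nat.mul_le_mul_left q h8
      _ = 9 * (p * q) := by ring
  have h9 : R.card ≤ q * R.card := Nat.le_mul_of_pos_left _ (by omega)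
  refine ⟨by omega, ?_⟩
  have h10 : S.card ≤ (q + 1) * R.card := by
    rw [Nat.add_mul, one_mul]
    omega
  calc S.card * p ≤ ((q + 1) * R.card) * p := Nat.mul_le_mul_right p h10
    _ = (p * q + p) * R.card := by ring
    _ ≤ (n + p) * R.card := Nat.mul_le_mul_right _ (by omega)

private theorem by_res {n p : ℕ} [Fact p.Prime] (hp5 : 5 ≤ p) (hpn : p ≤ n)
    (R : Finset (ZMod p)) (hR : 2 * R.card ≤ p + 4) (T : Finset (ℕ × ℕ)) (g : ℕ × ℕ → ℕ)
    (hg : ∀ P ∈ T, g P < n) (hf : ∀ t : ℕ, (T.filter fun P => g P = t).card ≤ 2)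
    (hgR : ∀ P ∈ T, (g P : ZMod p) ∈ R) :
    5 * T.card ≤ 9 * n ∧ T.card * p ≤ (n + p) * (p + 4) := by
  classical
  have h1 : T.card ≤ 2 * (T.image g).card :=
    Finset.card_le_mul_card_image T 2 fun t _ => hf t
  have h2 : T.image g ⊆ (Finset.range n).filter fun y : ℕ => (y : ZMod p) ∈ R := by
    intro y hy
    obtain ⟨P, hP, rfl⟩ := Finset.mem_image.1 hy
    exact Finset.mem_filter.2 ⟨Finset.mem_range.2 (hg P hP), hgR P hP⟩
  have h3 := Finset.card_le_card h2
  obtain ⟨h4, h5⟩ := count_res hp5 hpn R hR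
  refine ⟨by omega, ?_⟩
  calc T.card * p ≤ (2 * ((Finset.range n).filter fun y : ℕ => (y : ZMod p) ∈ R).card) * p :=
        Nat.mul_le_mul_right p (h1.trans (Nat.mul_le_mul_left 2 h3))
    _ = 2 * (((Finset.range n).filter fun y : ℕ => (y : ZMod p) ∈ R).card * p) := by ring
    _ ≤ 2 * ((n + p) * R.card) := Nat.mul_le_mul_left 2 h5
    _ = (n + p) * (2 * R.card) := by ring
    _ ≤ (n + p) * (p + 4) := Nat.mul_le_mul_left _ hR

private theorem two_ne {p : ℕ} [Fact p.Prime] (hp2 : p ≠ 2) : (2 : ZMod p) ≠ 0 := by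
  have : Fact (2 < p) := ⟨lt_of_le_of_ne (Fact.out : p.Prime).two_le hp2.symm⟩
  exact ZMod.neg_one_ne_one.symm ∘ fun h => by
    have : (1 : ZMod p) + 1 = 0 := by rw [one_add_one_eq_two]; exact h
    exact (eq_neg_of_add_eq_zero_left this)

/-- Conics with `A = C = 0` are hyperbolas with horizontal and vertical asymptotes. -/
private theorem to_hyp {p : ℕ} [Fact p.Prime] {A B C D E F : ZMod p} (hdet : Nondeg p A B C D E F)
    (hA : A = 0) (hC : C = 0) {T : Finset (ℕ × ℕ)} (hQ : OnConic p A B C D E F T) :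
    ∃ a b k : ZMod p, k ≠ 0 ∧ OnHyperbola p a b k T := by
  unfold Nondeg at hdet
  have hB : B ≠ 0 := by
    intro hB
    apply hdet
    rw [hA, hB, hC]
    ring
  refine ⟨-(E / B), -(D / B), (D * E - B * F) / B ^ 2, ?_, ?_⟩
  · refine div_ne_zero ?_ (pow_ne_zero 2 hB)
    intro h
    apply hdet
    rw [hA, hC]
    linear_combination B * h
  · intro P hP
    have h := hQ P hP
    rw [hA, hC] at h
    field_simp
    linear_combination B * h

private theorem conic_rows (n p : ℕ) [Fact p.Prime] (hp5 : 5 ≤ p) (hpn : p ≤ n)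
    (A B C D E F : ZMod p) (hdet : Nondeg p A B C D E F) (hAC : ¬ (A = 0 ∧ C = 0))
    (T : Finset (ℕ × ℕ)) (hn : InGrid n T) (hT : NoThree T)
    (hQ : OnConic p A B C D E F T) :
    5 * T.card ≤ 9 * n ∧ T.card * p ≤ (n + p) * (p + 4) := by
  classical
  unfold Nondeg at hdet
  have hp2 : p ≠ 2 := by omega
  have h16 : (16 : ZMod p) ≠ 0 := by
    have : (16 : ZMod p) = 2 ^ 4 := by norm_num
    rw [this]
    exact pow_ne_zero 4 (two_ne hp2)
  by_cases hA : A = 0
  · have hC : C ≠ 0 := fun hC => hAC ⟨hA, hC⟩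
    have hd : (2 * B * E - 4 * C * D) ^ 2 - 4 * (B ^ 2 - 4 * C * A) * (E ^ 2 - 4 * C * F) ≠
        0 := by
      intro h
      have h1 : 16 * C * (4 * A * C * F + B * D * E - A * E ^ 2 - C * D ^ 2 - F * B ^ 2) =
          0 := by linear_combination -h
      rcases mul_eq_zero.1 h1 with h2 | h2
      · rcases mul_eq_zero.1 h2 with h3 | h3
        · exact h16 h3
        · exact hC h3
      · exact hdet h2
    refine by_res hp5 hpn _ (card_sqvals hp2 _ _ _ hd) T (fun P => P.1)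
      (fun P hP => (hn P hP).1) (fun t => ?_) (fun P hP => ?_)
    · have h := two_of_three hT (fun P => (P.1 : ℤ)) (by
        intro P _ Q _ R _ h1 h2
        rw [← h1, ← h2]
        ring) (t : ℤ)
      simpa using h
    · refine Finset.mem_filter.2 ⟨Finset.mem_univ _,
        2 * C * (P.2 : ZMod p) + B * (P.1 : ZMod p) + E, ?_⟩
      have h := hQ P hP
      linear_combination 4 * C * h
  · have hd : (2 * B * D - 4 * A * E) ^ 2 - 4 * (B ^ 2 - 4 * A * C) * (D ^ 2 - 4 * A * F) ≠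
        0 := by
      intro h
      have h1 : 16 * A * (4 * A * C * F + B * D * E - A * E ^ 2 - C * D ^ 2 - F * B ^ 2) =
          0 := by linear_combination -h
      rcases mul_eq_zero.1 h1 with h2 | h2
      · rcases mul_eq_zero.1 h2 with h3 | h3
        · exact h16 h3
        · exact hA h3
      · exact hdet h2
    refine by_res hp5 hpn _ (card_sqvals hp2 _ _ _ hd) T (fun P => P.2)
      (fun P hP => (hn P hP).2) (fun t => ?_) (fun P hP => ?_)
    · have h := two_of_three hT (fun P => (P.2 : ℤ)) (by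
        intro P _ Q _ R _ h1 h2
        rw [← h1, ← h2]
        ring) (t : ℤ)
      simpa using h
    · refine Finset.mem_filter.2 ⟨Finset.mem_univ _,
        2 * A * (P.1 : ZMod p) + B * (P.2 : ZMod p) + D, ?_⟩
      have h := hQ P hP
      linear_combination 4 * A * h

/-! ### The asymptotic bound -/

private theorem asym {κ ε n p t L : ℝ} (hκ : κ ^ 3 = 4) (hκ1 : 1 ≤ κ) (hε : 0 < ε) (hε1 : ε ≤ 1)
    (hL : 12 ≤ L * ε) (hp : L ≤ p) (hn : L * p ≤ n) (ht0 : 0 ≤ t)
    (h : p ^ 2 * t ^ 3 ≤ (p + 1) ^ 2 * (4 * n ^ 3 + p ^ 2 * t)) : t ≤ (κ + ε) * n := by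
  by_contra hlt
  push Not at hlt
  have hL0 : 12 ≤ L := by
    by_contra hc
    push Not at hc
    nlinarith
  have hp0 : 0 < p := by linarith
  have hn0 : 0 < n := by nlinarith
  have ht : 0 < t := lt_of_le_of_lt (by positivity) hlt
  have hκε : 0 < κ + ε := by linarith
  -- `(p + 1) ^ 2 ≤ (1 + 3 / p) p ^ 2`
  have h1 : (p + 1) ^ 2 ≤ (1 + ε / 4) * p ^ 2 := by
    have : 12 ≤ ε * p := by nlinarith
    nlinarith
  -- `p ^ 2 ≤ (ε / 12) n ^ 2`
  have h2 : p ^ 2 ≤ ε / 144 * n ^ 2 := by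
    have h3 : (L * p) ^ 2 ≤ n ^ 2 := by
      have : 0 ≤ L * p := by positivity
      gcongr
    have h4 : 144 ≤ L ^ 2 * ε := by nlinarith
    have h5 : 144 * p ^ 2 ≤ ε * (L * p) ^ 2 := by
      have : (0 : ℝ) ≤ p ^ 2 := by positivity
      nlinarith
    nlinarith
  have h3 : p ^ 2 * t ^ 3 ≤ p ^ 2 * ((1 + ε / 4) * (4 * n ^ 3 + p ^ 2 * t)) := by
    refine h.trans ?_
    have h4 : 0 ≤ 4 * n ^ 3 + p ^ 2 * t := by positivity
    calc (p + 1) ^ 2 * (4 * n ^ 3 + p ^ 2 * t)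
        ≤ ((1 + ε / 4) * p ^ 2) * (4 * n ^ 3 + p ^ 2 * t) :=
          mul_le_mul_of_nonneg_right h1 h4
      _ = _ := by ring
  have h4 : t ^ 3 ≤ (1 + ε / 4) * (4 * n ^ 3 + p ^ 2 * t) :=
    le_of_mul_le_mul_left h3 (by positivity)
  have h5 : t ^ 3 ≤ (1 + ε / 4) * (4 * n ^ 3 + ε / 144 * n ^ 2 * t) := by
    refine h4.trans ?_
    have : 0 ≤ 1 + ε / 4 := by positivity
    gcongr
  -- compare with `t > (κ + ε) n`
  have h6 : n ≤ t := by nlinarith
  have h7 : n ^ 2 * t ≤ t ^ 3 := by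
    have : n ^ 2 ≤ t ^ 2 := by gcongr
    nlinarith
  have h8 : (κ + ε) ^ 3 * n ^ 3 ≤ t ^ 3 := by
    rw [← mul_pow]
    gcongr
  have h9 : (4 + 3 * ε) * n ^ 3 ≤ t ^ 3 := by
    refine le_trans ?_ h8
    have h10 : 4 + 3 * ε ≤ (κ + ε) ^ 3 := by
      have : (κ + ε) ^ 3 = κ ^ 3 + 3 * κ ^ 2 * ε + 3 * κ * ε ^ 2 + ε ^ 3 := by ring
      rw [this, hκ]
      have h11 : ε ≤ κ ^ 2 * ε := by
        have : 1 ≤ κ ^ 2 := by nlinarith
        nlinarith
      have h12 : 0 ≤ 3 * κ * ε ^ 2 + ε ^ 3 := by positivity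
      linarith
    have : 0 ≤ n ^ 3 := by positivity
    gcongr
  have hn3 : 0 < n ^ 3 := by positivity
  have h10 : (1 + ε / 4) * (ε / 144 * n ^ 2 * t) ≤ ε / 100 * t ^ 3 := by
    have h11 : (1 + ε / 4) * (ε / 144 * n ^ 2 * t) = ((1 + ε / 4) * ε / 144) * (n ^ 2 * t) := by
      ring
    rw [h11]
    have h12 : (1 + ε / 4) * ε / 144 ≤ ε / 100 := by nlinarith
    have h13 : 0 ≤ n ^ 2 * t := by positivity
    calc ((1 + ε / 4) * ε / 144) * (n ^ 2 * t) ≤ (ε / 100) * (n ^ 2 * t) := by gcongr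
      _ ≤ ε / 100 * t ^ 3 := by gcongr
  have h11 : (1 - ε / 100) * t ^ 3 ≤ (4 + ε) * n ^ 3 := by
    have h12 : (1 + ε / 4) * (4 * n ^ 3) = (4 + ε) * n ^ 3 := by ring
    have h13 : (1 + ε / 4) * (4 * n ^ 3 + ε / 144 * n ^ 2 * t) =
        (1 + ε / 4) * (4 * n ^ 3) + (1 + ε / 4) * (ε / 144 * n ^ 2 * t) := by ring
    rw [h13, h12] at h5
    linarith
  have h12 : (1 - ε / 100) * ((4 + 3 * ε) * n ^ 3) ≤ (4 + ε) * n ^ 3 := by
    refine le_trans ?_ h11
    have : 0 ≤ 1 - ε / 100 := by linarith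
    gcongr
  have h13 : (1 - ε / 100) * (4 + 3 * ε) ≤ 4 + ε := by
    have h14 : (1 - ε / 100) * (4 + 3 * ε) * n ^ 3 ≤ (4 + ε) * n ^ 3 := by
      rw [mul_assoc]
      exact h12
    exact le_of_mul_le_mul_right h14 hn3
  nlinarith

private theorem asym_rows {κ ε n p t L : ℝ} (hκ1 : 3 / 2 ≤ κ) (hε : 0 ≤ ε) (hL : 12 ≤ L)
    (hp : L ≤ p) (hn : L * p ≤ n) (h : t * p ≤ (n + p) * (p + 4)) : t ≤ (κ + ε) * n := by
  have hp0 : 0 < p := by linarith
  have hn0 : 0 < n := by nlinarith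
  have h1 : t * p ≤ (3 / 2 * n) * p := by
    refine h.trans ?_
    have h2 : 12 * p ≤ n := by nlinarith
    have h3 : p + 4 ≤ 4 / 3 * p := by linarith
    have h4 : n + p ≤ 13 / 12 * n := by linarith
    calc (n + p) * (p + 4) ≤ (13 / 12 * n) * (4 / 3 * p) := by
          apply mul_le_mul h4 h3 (by positivity) (by positivity)
      _ ≤ (3 / 2 * n) * p := by nlinarith [mul_pos hn0 hp0]
  have h2 : t ≤ 3 / 2 * n := le_of_mul_le_mul_right h1 hp0
  nlinarith

/-- **Main theorem.** Let `T` be a subset of the `n × n` grid with no three points in line.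
1. For every modulus `m ≥ 1`, with `r₋`, `r₊` the number of residue classes modulo `m` of `x - y`
   and of `x + y`: `m² |T|³ (1 / r₋² + 1 / r₊²) ≤ 32 (n³ - n) + 8 m² |T|`.
2. If all points of `T` lie on one nondegenerate conic modulo a prime `p`, where `5 ≤ p ≤ n` or
   the conic is a hyperbola `(x - a) (y - b) = k` (then `p` is any prime), and `n ≥ 500`,
   then `|T| ≤ (9/5) n`, and `9/5 < π / √3`.
3. For every `ε > 0` there is `L` such that `|T| ≤ (4 ^ (1/3) + ε) n` in 2. if `p ≥ L`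
   and `n ≥ L p`. -/
theorem result :
    (∀ (n m : ℕ) (T : Finset (ℕ × ℕ)), 0 < m → InGrid n T → NoThree T →
      (m : ℝ) ^ 2 * (T.card : ℝ) ^ 3 *
        (1 / ((diffRes m T).card : ℝ) ^ 2 + 1 / ((sumRes m T).card : ℝ) ^ 2) ≤
      32 * ((n : ℝ) ^ 3 - n) + 8 * (m : ℝ) ^ 2 * T.card) ∧
    (∀ (n p : ℕ) (A B C D E F : ZMod p) (T : Finset (ℕ × ℕ)), p.Prime →
      Nondeg p A B C D E F → InGrid n T → NoThree T → OnConic p A B C D E F T →
      (A = 0 ∧ C = 0) ∨ (5 ≤ p ∧ p ≤ n) → 500 ≤ n →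
      (T.card : ℝ) ≤ 9 / 5 * n ∧ (9 / 5 : ℝ) < Real.pi / Real.sqrt 3) ∧
    (∀ ε : ℝ, 0 < ε → ∃ L : ℕ, ∀ (n p : ℕ) (A B C D E F : ZMod p) (T : Finset (ℕ × ℕ)),
      p.Prime → Nondeg p A B C D E F → InGrid n T → NoThree T → OnConic p A B C D E F T →
      L ≤ p → L * p ≤ n → (T.card : ℝ) ≤ ((4 : ℝ) ^ ((1 : ℝ) / 3) + ε) * n) := by
  refine ⟨fun n m T hm hn hT => general n m hm T hn hT, ?_, ?_⟩
  · intro n p A B C D E F T hp hdet hn hT hQ hcase h500
    have : Fact p.Prime := ⟨hp⟩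
    refine ⟨?_, pi_bound⟩
    by_cases hAC : A = 0 ∧ C = 0
    · obtain ⟨a, b, k, hk, hH⟩ := to_hyp hdet hAC.1 hAC.2 hQ
      exact final n p a b k hk T hn hT hH h500
    · obtain ⟨hp5, hpn⟩ := hcase.resolve_left hAC
      have h1 := (conic_rows n p hp5 hpn A B C D E F hdet hAC T hn hT hQ).1
      have h2 : (5 : ℝ) * T.card ≤ 9 * n := by exact_mod_cast h1
      linarith
  · intro ε hε
    obtain ⟨L, hL⟩ := exists_nat_ge (12 / min ε 1)
    have hε' : 0 < min ε 1 := lt_min hε one_pos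
    have hL12 : (12 : ℝ) ≤ L := by
      refine le_trans ?_ hL
      rw [le_div_iff₀ hε']
      have := min_le_right ε 1
      linarith
    refine ⟨L, ?_⟩
    intro n p A B C D E F T hp hdet hn hT hQ hLp hLn
    have : Fact p.Prime := ⟨hp⟩
    have hκ : ((4 : ℝ) ^ ((1 : ℝ) / 3)) ^ 3 = 4 := by
      rw [← Real.rpow_natCast, ← Real.rpow_mul (by norm_num)]
      norm_num
    have hκ0 : (0 : ℝ) ≤ (4 : ℝ) ^ ((1 : ℝ) / 3) := by positivity
    have hκ1 : (3 / 2 : ℝ) ≤ (4 : ℝ) ^ ((1 : ℝ) / 3) := by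
      by_contra hlt
      push Not at hlt
      have h1 : ((4 : ℝ) ^ ((1 : ℝ) / 3)) ^ 3 < (3 / 2) ^ 3 := by gcongr
      rw [hκ] at h1
      norm_num at h1
    have hLp' : (L : ℝ) ≤ p := by exact_mod_cast hLp
    have hLn' : (L : ℝ) * p ≤ n := by exact_mod_cast hLn
    by_cases hAC : A = 0 ∧ C = 0
    · obtain ⟨a, b, k, hk, hH⟩ := to_hyp hdet hAC.1 hAC.2 hQ
      have h1 : 12 ≤ (L : ℝ) * min ε 1 := (div_le_iff₀ hε').1 hL
      have h2 := asym (n := n) (p := p) (t := T.card) hκ (by linarith) hε' (min_le_right _ _) h1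
        hLp' hLn' (Nat.cast_nonneg _) (hyp_ineq n p a b k hk T hn hT hH)
      refine h2.trans ?_
      have : min ε 1 ≤ ε := min_le_left _ _
      gcongr
    · have hp5 : 5 ≤ p := by
        have h1 : (5 : ℝ) ≤ p := by linarith
        exact_mod_cast h1
      have hpn : p ≤ n := by
        have h1 : (p : ℝ) ≤ n := by
          have : (0 : ℝ) ≤ p := Nat.cast_nonneg p
          nlinarith
        exact_mod_cast h1
      have h1 := (conic_rows n p hp5 hpn A B C D E F hdet hAC T hn hT hQ).2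
      have h2 : (T.card : ℝ) * p ≤ ((n : ℝ) + p) * ((p : ℝ) + 4) := by exact_mod_cast h1
      exact asym_rows hκ1 hε.le hL12 hLp' hLn' h2

end Pool.Agent.Results.MP_958251_co.OneConic
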