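import Pool.Agent.Helper30.ArcB

set_option autoImplicit false

namespace Pool.Agent.Results.MP_958251_co.ArcLift

/-- The points of `T` lie in the `n × n` grid `{0, ..., n-1} × {0, ..., n-1}`. -/
def InGrid (n : ℕ) (T : Finset (ℕ × ℕ)) : Prop := ∀ P ∈ T, P.1 < n ∧ P.2 < n

/-- No three distinct points of `T` lie on a common straight line. -/
def NoThree (T : Finset (ℕ × ℕ)) : Prop :=
  ∀ P ∈ T, ∀ Q ∈ T, ∀ R ∈ T, P ≠ Q → P ≠ R → Q ≠ R →
    ((Q.1 : ℤ) - P.1) * ((R.2 : ℤ) - P.2) ≠ ((Q.2 : ℤ) - P.2) * ((R.1 : ℤ) - P.1)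

/-- The residue modulo `p` of a lattice point. -/
def res (p : ℕ) (P : ℕ × ℕ) : ZMod p × ZMod p := ((P.1 : ZMod p), (P.2 : ZMod p))

/-- The residues modulo `p` of the points of `T` form an arc of the affine plane over `ZMod p`:
no three points of `T` with distinct residues are collinear modulo `p`. -/
def ArcMod (p : ℕ) (T : Finset (ℕ × ℕ)) : Prop :=
  ∀ P ∈ T, ∀ Q ∈ T, ∀ R ∈ T, res p P ≠ res p Q → res p P ≠ res p R → res p Q ≠ res p R →
    ((Q.1 : ZMod p) - P.1) * ((R.2 : ZMod p) - P.2) ≠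
      ((Q.2 : ZMod p) - P.2) * ((R.1 : ZMod p) - P.1)

open Pool.Agent.Helper30

private theorem toMod {p : ℕ} [Fact p.Prime] {T : Finset (ℕ × ℕ)} (hA : ArcMod p T) :
    ArcA.NoThreeMod (T.image (ArcB.res p)) := by
  intro a ha b hb c hc h1 h2 h3
  obtain ⟨P, hP, rfl⟩ := Finset.mem_image.1 ha
  obtain ⟨Q, hQ, rfl⟩ := Finset.mem_image.1 hb
  obtain ⟨R, hR, rfl⟩ := Finset.mem_image.1 hc
  exact hA P hP Q hQ R hR h1 h2 h3

private theorem part_one {p : ℕ} [Fact p.Prime] {T : Finset (ℕ × ℕ)} (hn : InGrid (2 * p) T)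
    (hT : NoThree T) (hA : ArcMod p T) : T.card ≤ 3 * p + 4 := by
  have hp2 : 2 ≤ p := (Fact.out : p.Prime).two_le
  have hA' := toMod hA
  by_contra hlt
  push Not at hlt
  have h1 := ArcB.rows (p := p) hn hT
  have h2 := ArcB.cols (p := p) hn hT
  have h3 : 2 * p / p = 2 := Nat.mul_div_cancel 2 (by omega)
  have h4 : 2 * p % p = 0 := Nat.mul_mod_left 2 p
  rw [h3, h4] at h1 h2
  have h5 : ArcA.nl none (T.image (ArcB.res p)) ≤ (T.image (ArcB.res p)).card :=
    Finset.card_image_le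
  have h6 : ArcA.nl (some 0) (T.image (ArcB.res p)) ≤ (T.image (ArcB.res p)).card :=
    Finset.card_image_le
  have h7 := (ArcB.small hn hT le_rfl hA' (by omega) (by omega)).2
  omega

private theorem pi_bound : (9 / 5 : ℝ) < Real.pi / Real.sqrt 3 := by
  have h3 : (0 : ℝ) < Real.sqrt 3 := by positivity
  rw [lt_div_iff₀ h3]
  have h1 : Real.sqrt 3 < 17321 / 10000 := by
    rw [Real.sqrt_lt' (by norm_num)]
    norm_num
  have h2 : (3.1415 : ℝ) < Real.pi := Real.pi_gt_d4
  linarith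

private theorem part_two {n p : ℕ} [Fact p.Prime] {T : Finset (ℕ × ℕ)} (hn : InGrid n T)
    (hT : NoThree T) (hA : ArcMod p T) (hp : 200 ≤ p) (hpn : 5 * p ≤ 9 * n) :
    (T.card : ℝ) ≤ 9 / 5 * n + 4 := by
  have hA' := toMod hA
  by_cases hnp : n < p
  · have h1 : T.card ≤ (T.image (ArcB.res p)).card := by
      rw [Finset.card_image_of_injOn]
      intro P hP Q hQ h
      have h2 := hn P (Finset.mem_coe.1 hP)
      have h3 := hn Q (Finset.mem_coe.1 hQ)
      have h4 : ((P.1 : ZMod p), (P.2 : ZMod p)) = ((Q.1 : ZMod p), (Q.2 : ZMod p)) := h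
      rw [Prod.mk.injEq] at h4
      refine Prod.ext (ArcB.cast_inj h4.1 ?_) (ArcB.cast_inj h4.2 ?_)
      · rw [Nat.div_eq_of_lt (by omega), Nat.div_eq_of_lt (by omega)]
      · rw [Nat.div_eq_of_lt (by omega), Nat.div_eq_of_lt (by omega)]
    have h2 := ArcA.card_le hA'
    have h3 : 5 * T.card ≤ 9 * n + 20 := by omega
    have h4 : (5 : ℝ) * T.card ≤ 9 * n + 20 := by exact_mod_cast h3
    linarith
  push Not at hnp
  by_contra hlt
  push Not at hlt
  have hlt' : 9 * n + 20 < 5 * T.card := by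
    have h1 : (9 : ℝ) * n + 20 < 5 * T.card := by linarith
    exact_mod_cast h1
  have h1 := ArcB.rows (p := p) hn hT
  have h2 := ArcB.cols (p := p) hn hT
  have h5 : ArcA.nl none (T.image (ArcB.res p)) ≤ (T.image (ArcB.res p)).card :=
    Finset.card_image_le
  have h6 : ArcA.nl (some 0) (T.image (ArcB.res p)) ≤ (T.image (ArcB.res p)).card :=
    Finset.card_image_le
  have h7 := ArcB.heavy_of h1 h5 hp hnp (by omega)
  have h8 := ArcB.heavy_of h2 h6 hp hnp (by omega)
  by_cases hn2 : n ≤ 2 * p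
  · have h9 := ArcB.small hn hT hn2 hA' h7 h8
    omega
  · push Not at hn2
    have hne : T.Nonempty := Finset.card_pos.1 (by omega)
    obtain ⟨R, hR0, hR, hm⟩ := ArcB.moment hn hT hne hA' h7 h8
    have h9 := Nat.div_add_mod n p
    have h10 : n % p < p := Nat.mod_lt _ (by omega)
    have h11 : 2 ≤ n / p := (Nat.le_div_iff_mul_le (by omega)).2 hn2.le
    have h12 : T.card ≤ 2 * (n / p * (T.image (ArcB.res p)).card + n % p) := by
      refine h1.trans ?_
      have := Nat.mul_le_mul_left (n / p) h5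
      omega
    refine ArcB.numeric_two (n := n) (p := p) (N := (n / p : ℕ)) (ρ := (n % p : ℕ))
      (k := ((T.image (ArcB.res p)).card : ℝ)) (t := (T.card : ℝ)) (R := R) ?_ (Nat.cast_nonneg _)
      ?_ ?_ ?_ hR ?_ ?_ hR0 hm
    · have : n = n / p * p + n % p := by rw [mul_comm]; exact h9.symm
      exact_mod_cast this
    · exact_mod_cast h10
    · exact_mod_cast h11
    · exact_mod_cast hp
    · exact_mod_cast h12
    · linarith

private theorem part_three {n p : ℕ} [Fact p.Prime] {T : Finset (ℕ × ℕ)} (hn : InGrid n T)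
    (hT : NoThree T) (hA : ArcMod p T) (hp : 200 ≤ p) (hpn : 50 * p ≤ n) :
    (T.card : ℝ) ≤ 7 / 4 * n := by
  have hA' := toMod hA
  by_contra hlt
  push Not at hlt
  have hlt' : 7 * n < 4 * T.card := by
    have h1 : (7 : ℝ) * n < 4 * T.card := by linarith
    exact_mod_cast h1
  have h1 := ArcB.rows (p := p) hn hT
  have h2 := ArcB.cols (p := p) hn hT
  have h5 : ArcA.nl none (T.image (ArcB.res p)) ≤ (T.image (ArcB.res p)).card :=
    Finset.card_image_le
  have h6 : ArcA.nl (some 0) (T.image (ArcB.res p)) ≤ (T.image (ArcB.res p)).card :=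
    Finset.card_image_le
  have h7 := ArcB.heavy_of h1 h5 hp (by omega) hlt'
  have h8 := ArcB.heavy_of h2 h6 hp (by omega) hlt'
  have hne : T.Nonempty := Finset.card_pos.1 (by omega)
  obtain ⟨R, hR0, hR, hm⟩ := ArcB.moment hn hT hne hA' h7 h8
  have h9 := Nat.div_add_mod n p
  have h10 : n % p < p := Nat.mod_lt _ (by omega)
  have h11 : 1 ≤ n / p := (Nat.le_div_iff_mul_le (by omega)).2 (by omega)
  have h12 : T.card ≤ 2 * (n / p * (T.image (ArcB.res p)).card + n % p) := by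
    refine h1.trans ?_
    have := Nat.mul_le_mul_left (n / p) h5
    omega
  refine ArcB.numeric_three (n := n) (p := p) (N := (n / p : ℕ)) (ρ := (n % p : ℕ))
    (k := ((T.image (ArcB.res p)).card : ℝ)) (t := (T.card : ℝ)) (R := R) ?_ (Nat.cast_nonneg _)
    ?_ ?_ ?_ hR ?_ ?_ hR0 ?_ hm
  · have : n = n / p * p + n % p := by rw [mul_comm]; exact h9.symm
    exact_mod_cast this
  · exact_mod_cast h10
  · exact_mod_cast h11
  · exact_mod_cast hp
  · exact_mod_cast h12
  · linarith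
  · exact_mod_cast hpn

/-- **Main theorem.** Let `p` be a prime and let `T` be a subset of the `n × n` grid with no three
points in line, whose residues modulo `p` form an arc of the affine plane over the field with `p`
elements. Then `|T| ≤ 3 p + 4` if `n ≤ 2 p`; `|T| ≤ (9/5) n + 4`, where `9/5 < π / √3`, if
`200 ≤ p ≤ (9/5) n`; and `|T| ≤ (7/4) n` if `200 ≤ p ≤ n / 50`. -/
theorem result (n p : ℕ) (T : Finset (ℕ × ℕ)) (hp : p.Prime) (hn : InGrid n T)
    (hT : NoThree T) (hA : ArcMod p T) :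
    (n ≤ 2 * p → T.card ≤ 3 * p + 4) ∧
    (200 ≤ p → 5 * p ≤ 9 * n →
      (T.card : ℝ) ≤ 9 / 5 * n + 4 ∧ (9 / 5 : ℝ) < Real.pi / Real.sqrt 3) ∧
    (200 ≤ p → 50 * p ≤ n → (T.card : ℝ) ≤ 7 / 4 * n) := by
  have : Fact p.Prime := ⟨hp⟩
  refine ⟨fun h => ?_, fun h1 h2 => ⟨part_two hn hT hA h1 h2, pi_bound⟩,
    fun h1 h2 => part_three hn hT hA h1 h2⟩
  refine part_one (fun P hP => ?_) hT hA
  have := hn P hP
  exact ⟨by omega, by omega⟩

end Pool.Agent.Results.MP_958251_co.ArcLift
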